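import Mathlib
import Pool.Agent.W296.LCB
import Pool.Agent.W296.BallB
import Pool.Agent.Y857.LB.Ball
import Pool.Agent.Y857.LB.Ev

set_option autoImplicit false

/-!
# Evasive locally constructible balls in all dimensions at least three

The definitions (`IsCx`, `realization`, `IsBall`, `IsLC`, `NonEvasive`) are in
`Pool.Agent.H933R3.Defs`.  The examples are the iterated suspensions of a 3-ball with 13 vertices
and 55 tetrahedra.
-/

namespace Pool.Agent.Results.MP_1acbfe_co.EvasiveInAllDimensions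

open Pool.Agent.H933R3 Pool.Agent.Helper175.NS Pool.Agent.Y857.LB

theorem iterated (k : ℕ) : ∃ K : Finset (Finset (Fin (13 + 2 * k))),
    IsCx K ∧ IsBall (3 + k) K ∧ IsLC (3 + k) K ∧ ¬ NonEvasive K := by
  induction k with
  | zero =>
    exact ⟨cx 13 Bm, isCx_cx (by decide), Pool.Agent.W296.BallB.isBall_B,
      Pool.Agent.W296.LCB.isLC_B, evasive_B 13 (by norm_num)⟩
  | succ k ih =>
    obtain ⟨K, h1, h2, h3, h4⟩ := ih
    exact ⟨sus (up (13 + 2 * k)) 0 (Fin.succ 0) K, isCx_sus h1, isBall_sus h2,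
      isLC_sus (pos_up _) h3, evasive_sus (pos_up _) h1 h4⟩

/-- In every dimension `d ≥ 3` there is a locally constructible triangulated `d`-ball, with at
most `2 d + 7` vertices, that is evasive. -/
theorem result : ∀ d : ℕ, 3 ≤ d → ∃ K : Finset (Finset (Fin (2 * d + 7))),
    IsCx K ∧ IsBall d K ∧ IsLC d K ∧ ¬ NonEvasive K := by
  intro d hd
  obtain ⟨k, rfl⟩ := Nat.exists_eq_add_of_le hd
  have h : 2 * (3 + k) + 7 = 13 + 2 * k := by omega
  rw [h]
  exact iterated k

end Pool.Agent.Results.MP_1acbfe_co.EvasiveInAllDimensions
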